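import Mathlib
import Pool.Agent.R672.UU.Geo

/-!
# The maximal size of a non-commuting set in `UU₄(q)` is not a polynomial in `q` for large `q`

Let `q` be a power of a prime and `ω(q)` the largest size of a non-commuting subset of the group
`UU₄(q)` of upper unitriangular `4 × 4` matrices over the field with `q` elements.  If `q` is even
then `ω(q) ≥ q³ + q² - q + 1`, and if `q` is odd then `ω(q) ≤ q³ + q² - q`.  So `ω` is not a
polynomial in `q` for large `q`.

Idea.  Elements with a nonzero entry at the place `(2,3)` fall into `q³ - q + 1` commuting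
classes; the elements with zero entry there correspond to vectors of a symplectic space of
dimension four, and non-commuting sets to partial ovoids of the symplectic generalized quadrangle
`W(3, q)`.  For even `q` an elliptic quadric (minus one point) gives `q²` elements, for odd `q`
a partial ovoid of `W(3, q)` has fewer than `q²` points.
-/

set_option autoImplicit false

open Matrix

namespace Pool.Agent.Results.MP_671173_al.NotPolynomial

/-- `X` is a non-commuting set: no two distinct elements of `X` commute -/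
def NonCommuting {G : Type} [Group G] (X : Finset G) : Prop :=
  ∀ x ∈ X, ∀ y ∈ X, x ≠ y → x * y ≠ y * x

/-- the largest size of a non-commuting subset of `G` (`G` finite) -/
noncomputable def omega (G : Type) [Group G] : ℕ :=
  sSup {n | ∃ X : Finset G, NonCommuting X ∧ X.card = n}

/-- the group `UU₄(F)` of the upper triangular `4 × 4` matrices over `F` with all diagonal entries
equal to `1`, under matrix multiplication -/
def UU4 (F : Type) [Field F] : Subgroup (GL (Fin 4) F) where
  carrier := {g | (∀ i, (g : Matrix (Fin 4) (Fin 4) F) i i = 1) ∧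
    ∀ i j, j < i → (g : Matrix (Fin 4) (Fin 4) F) i j = 0}
  one_mem' := by
    refine ⟨fun i => by simp, fun i j hij => ?_⟩
    simp [Matrix.one_apply_ne (ne_of_gt hij)]
  mul_mem' := by
    rintro g h ⟨g1, g0⟩ ⟨h1, h0⟩
    have gg := fun i j (hij : j < i) => g0 i j hij
    have hh := fun i j (hij : j < i) => h0 i j hij
    constructor
    · intro i
      rw [Units.val_mul, Matrix.mul_apply, Finset.sum_eq_single i]
      · rw [g1, h1, mul_one]
      · intro k _ hk
        rcases lt_or_gt_of_ne hk with h | h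
        · rw [gg i k h, zero_mul]
        · rw [hh k i h, mul_zero]
      · intro hi
        exact absurd (Finset.mem_univ i) hi
    · intro i j hij
      rw [Units.val_mul, Matrix.mul_apply]
      refine Finset.sum_eq_zero fun k _ => ?_
      rcases lt_or_ge k i with h | h
      · rw [gg i k h, zero_mul]
      · rw [hh k j (lt_of_lt_of_le hij h), mul_zero]
  inv_mem' := by
    rintro g ⟨g1, g0⟩
    have hm : ∀ i j, ∑ k, (g : Matrix (Fin 4) (Fin 4) F) i k *
        ((g⁻¹ : GL (Fin 4) F) : Matrix (Fin 4) (Fin 4) F) k j = (1 : Matrix (Fin 4) (Fin 4) F) i j := by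
      intro i j
      rw [← Matrix.mul_apply, ← Units.val_mul, mul_inv_cancel, Units.val_one]
    simp only [Fin.sum_univ_four] at hm
    have a3 : ∀ j, ((g⁻¹ : GL (Fin 4) F) : Matrix (Fin 4) (Fin 4) F) 3 j =
        (1 : Matrix (Fin 4) (Fin 4) F) 3 j := by
      intro j
      have := hm 3 j
      rw [g0 3 0 (by decide), g0 3 1 (by decide), g0 3 2 (by decide), g1 3] at this
      simpa using this
    have a2 : ∀ j, ((g⁻¹ : GL (Fin 4) F) : Matrix (Fin 4) (Fin 4) F) 2 j =
        (1 : Matrix (Fin 4) (Fin 4) F) 2 j - (g : Matrix (Fin 4) (Fin 4) F) 2 3 *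
          (1 : Matrix (Fin 4) (Fin 4) F) 3 j := by
      intro j
      have := hm 2 j
      rw [g0 2 0 (by decide), g0 2 1 (by decide), g1 2, a3 j] at this
      linear_combination this
    have a1 : ∀ j, ((g⁻¹ : GL (Fin 4) F) : Matrix (Fin 4) (Fin 4) F) 1 j =
        (1 : Matrix (Fin 4) (Fin 4) F) 1 j - (g : Matrix (Fin 4) (Fin 4) F) 1 2 *
          ((g⁻¹ : GL (Fin 4) F) : Matrix (Fin 4) (Fin 4) F) 2 j -
          (g : Matrix (Fin 4) (Fin 4) F) 1 3 *
          ((g⁻¹ : GL (Fin 4) F) : Matrix (Fin 4) (Fin 4) F) 3 j := by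
      intro j
      have := hm 1 j
      rw [g0 1 0 (by decide), g1 1] at this
      linear_combination this
    have b0 : ((g⁻¹ : GL (Fin 4) F) : Matrix (Fin 4) (Fin 4) F) 3 0 = 0 ∧
        ((g⁻¹ : GL (Fin 4) F) : Matrix (Fin 4) (Fin 4) F) 3 1 = 0 ∧
        ((g⁻¹ : GL (Fin 4) F) : Matrix (Fin 4) (Fin 4) F) 3 2 = 0 ∧
        ((g⁻¹ : GL (Fin 4) F) : Matrix (Fin 4) (Fin 4) F) 3 3 = 1 := by
      refine ⟨?_, ?_, ?_, ?_⟩ <;> rw [a3] <;> simp
    have b1 : ((g⁻¹ : GL (Fin 4) F) : Matrix (Fin 4) (Fin 4) F) 2 0 = 0 ∧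
        ((g⁻¹ : GL (Fin 4) F) : Matrix (Fin 4) (Fin 4) F) 2 1 = 0 ∧
        ((g⁻¹ : GL (Fin 4) F) : Matrix (Fin 4) (Fin 4) F) 2 2 = 1 := by
      refine ⟨?_, ?_, ?_⟩ <;> rw [a2] <;> simp
    have b2 : ((g⁻¹ : GL (Fin 4) F) : Matrix (Fin 4) (Fin 4) F) 1 0 = 0 ∧
        ((g⁻¹ : GL (Fin 4) F) : Matrix (Fin 4) (Fin 4) F) 1 1 = 1 := by
      refine ⟨?_, ?_⟩ <;> rw [a1, a2, a3] <;> simp
    have b3 : ((g⁻¹ : GL (Fin 4) F) : Matrix (Fin 4) (Fin 4) F) 0 0 = 1 := by
      have := hm 0 0
      rw [b2.1, b1.1, b0.1, g1 0] at this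
      simpa using this
    constructor
    · intro i
      fin_cases i
      · exact b3
      · exact b2.2
      · exact b1.2.2
      · exact b0.2.2.2
    · intro i j hij
      fin_cases i <;> fin_cases j <;> first
        | exact b0.1
        | exact b0.2.1
        | exact b0.2.2.1
        | exact b1.1
        | exact b1.2.1
        | exact b2.1
        | (exfalso; revert hij; decide)

section group

variable {F : Type} [Field F]

/-- the entry `(i, j)` -/
def en (x : UU4 F) (i j : Fin 4) : F := ((x : GL (Fin 4) F) : Matrix (Fin 4) (Fin 4) F) i j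

theorem en_diag (x : UU4 F) (i : Fin 4) : en x i i = 1 := x.2.1 i

theorem en_low (x : UU4 F) {i j : Fin 4} (h : j < i) : en x i j = 0 := x.2.2 i j h

theorem en_mul (x y : UU4 F) (i j : Fin 4) : en (x * y) i j = ∑ k, en x i k * en y k j := by
  unfold en
  rw [Subgroup.coe_mul, Units.val_mul, Matrix.mul_apply]

theorem ext_en {x y : UU4 F} (h : ∀ i j, en x i j = en y i j) : x = y := by
  apply Subtype.ext
  apply Units.ext
  ext i j
  exact h i j

/-- two elements commute if and only if three equations hold -/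
theorem comm_iff (x y : UU4 F) : x * y = y * x ↔
    en x 0 1 * en y 1 2 = en y 0 1 * en x 1 2 ∧ en x 1 2 * en y 2 3 = en y 1 2 * en x 2 3 ∧
    en x 0 1 * en y 1 3 + en x 0 2 * en y 2 3 = en y 0 1 * en x 1 3 + en y 0 2 * en x 2 3 := by
  constructor
  · intro h
    have e : ∀ i j, en (x * y) i j = en (y * x) i j := fun i j => by rw [h]
    simp only [en_mul, Fin.sum_univ_four] at e
    have e1 := e 0 2
    have e2 := e 1 3
    have e3 := e 0 3
    rw [en_diag, en_diag, en_diag, en_diag, en_low x (show (2 : Fin 4) < 3 by decide),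
      en_low y (show (2 : Fin 4) < 3 by decide)] at e1
    rw [en_low x (show (0 : Fin 4) < 1 by decide), en_low y (show (0 : Fin 4) < 1 by decide),
      en_diag, en_diag, en_diag, en_diag] at e2
    rw [en_diag, en_diag, en_diag, en_diag] at e3
    refine ⟨by linear_combination e1, by linear_combination e2, by linear_combination e3⟩
  · rintro ⟨h1, h2, h3⟩
    apply ext_en
    intro i j
    rw [en_mul, en_mul, Fin.sum_univ_four, Fin.sum_univ_four]
    have x0 := en_diag x 0
    have x1 := en_diag x 1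
    have x2 := en_diag x 2
    have x3 := en_diag x 3
    have y0 := en_diag y 0
    have y1 := en_diag y 1
    have y2 := en_diag y 2
    have y3 := en_diag y 3
    have xa := en_low x (show (0 : Fin 4) < 1 by decide)
    have xb := en_low x (show (0 : Fin 4) < 2 by decide)
    have xc := en_low x (show (0 : Fin 4) < 3 by decide)
    have xd := en_low x (show (1 : Fin 4) < 2 by decide)
    have xe := en_low x (show (1 : Fin 4) < 3 by decide)
    have xf := en_low x (show (2 : Fin 4) < 3 by decide)
    have ya := en_low y (show (0 : Fin 4) < 1 by decide)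
    have yb := en_low y (show (0 : Fin 4) < 2 by decide)
    have yc := en_low y (show (0 : Fin 4) < 3 by decide)
    have yd := en_low y (show (1 : Fin 4) < 2 by decide)
    have ye := en_low y (show (1 : Fin 4) < 3 by decide)
    have yf := en_low y (show (2 : Fin 4) < 3 by decide)
    fin_cases i <;> fin_cases j <;>
      simp only [Fin.zero_eta, Fin.mk_one, Fin.reduceFinMk, x0, x1, x2, x3, y0, y1, y2, y3,
        xa, xb, xc, xd, xe, xf, ya, yb, yc, yd, ye, yf] <;>
      first
        | ring1
        | linear_combination h1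
        | linear_combination h2
        | linear_combination h3

/-- the element with given entries -/
def mk (a b c d e : F) : UU4 F :=
  ⟨⟨!![1, a, d, 0; 0, 1, b, e; 0, 0, 1, c; 0, 0, 0, 1],
    !![1, -a, a * b - d, a * e + d * c - a * b * c; 0, 1, -b, b * c - e; 0, 0, 1, -c; 0, 0, 0, 1],
    by
      ext i j
      fin_cases i <;> fin_cases j <;> simp [Matrix.mul_apply, Fin.sum_univ_four] <;> ring,
    by
      ext i j
      fin_cases i <;> fin_cases j <;> simp [Matrix.mul_apply, Fin.sum_univ_four] <;> ring⟩, by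
    constructor
    · intro i
      fin_cases i <;> rfl
    · intro i j hij
      fin_cases i <;> fin_cases j <;> first
        | rfl
        | (exfalso; revert hij; decide)⟩

theorem mk_comm {a b c d e a' b' c' d' e' : F} :
    mk a b c d e * mk a' b' c' d' e' = mk a' b' c' d' e' * mk a b c d e ↔
    a * b' = a' * b ∧ b * c' = b' * c ∧ a * e' + d * c' = a' * e + d' * c :=
  comm_iff _ _

theorem finite_UU4 [Finite F] : Finite (UU4 F) := inferInstance

end group

section bounds

variable {G : Type} [Group G]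

theorem bdd [Finite G] : BddAbove {n | ∃ X : Finset G, NonCommuting X ∧ X.card = n} := by
  have := Fintype.ofFinite G
  refine ⟨Fintype.card G, ?_⟩
  rintro n ⟨X, _, rfl⟩
  exact Finset.card_le_univ X

theorem omega_le {m : ℕ} (h : ∀ X : Finset G, NonCommuting X → X.card ≤ m) : omega G ≤ m := by
  refine csSup_le ⟨0, ∅, fun x hx => absurd hx (Finset.notMem_empty x), rfl⟩ ?_
  rintro n ⟨X, hX, rfl⟩
  exact h X hX

theorem le_omega [Finite G] {ι : Type} [Fintype ι] (g : ι → G)
    (hg : ∀ i j, g i * g j = g j * g i → i = j) : Fintype.card ι ≤ omega G := by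
  classical
  have hinj : Function.Injective g := fun i j e => hg i j (by rw [e])
  refine le_csSup bdd ⟨Finset.univ.image g, ?_, ?_⟩
  · intro x hx y hy hxy e
    rw [Finset.mem_image] at hx hy
    obtain ⟨i, _, rfl⟩ := hx
    obtain ⟨j, _, rfl⟩ := hy
    exact hxy (by rw [hg i j e])
  · rw [Finset.card_image_of_injective _ hinj, Finset.card_univ]

end bounds

section upper

variable {F : Type} [Field F]

/-- the symplectic form -/
def Bf : (Fin 4 → F) →ₗ[F] (Fin 4 → F) →ₗ[F] F :=
  LinearMap.mk₂ F (fun u v => u 0 * v 1 - v 0 * u 1 + (u 2 * v 3 - v 2 * u 3))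
    (by intro u v w; simp only [Pi.add_apply]; ring)
    (by intro c u v; simp only [Pi.smul_apply, smul_eq_mul]; ring)
    (by intro u v w; simp only [Pi.add_apply]; ring)
    (by intro c u v; simp only [Pi.smul_apply, smul_eq_mul]; ring)

theorem Bf_apply (u v : Fin 4 → F) :
    Bf u v = u 0 * v 1 - v 0 * u 1 + (u 2 * v 3 - v 2 * u 3) := rfl

theorem symp : Pool.Agent.R672.UU.Symp (Bf (F := F)) where
  dim := by simp
  alt x := by rw [Bf_apply]; ring
  nd x h := by
    have h0 := h (Pi.single 1 1)
    have h1 := h (Pi.single 0 1)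
    have h2 := h (Pi.single 3 1)
    have h3 := h (Pi.single 2 1)
    simp only [Bf_apply, Pi.single_apply] at h0 h1 h2 h3
    funext i
    fin_cases i
    · simpa using h0
    · simpa using h1
    · simpa using h2
    · simpa using h3

/-- the vector of an element -/
def vec (x : UU4 F) : Fin 4 → F := ![en x 0 1, en x 1 3, en x 0 2, en x 2 3]

theorem Bf_vec (x y : UU4 F) : Bf (vec x) (vec y) =
    en x 0 1 * en y 1 3 + en x 0 2 * en y 2 3 - (en y 0 1 * en x 1 3 + en y 0 2 * en x 2 3) := by
  rw [Bf_apply]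
  simp only [vec, Matrix.cons_val_zero, Matrix.cons_val_one, Matrix.cons_val]
  ring

theorem comm_of_zero {x y : UU4 F} (hx : en x 1 2 = 0) (hy : en y 1 2 = 0)
    (h : Bf (vec x) (vec y) = 0) : x * y = y * x := by
  rw [comm_iff, hx, hy]
  rw [Bf_vec] at h
  exact ⟨by ring, by ring, sub_eq_zero.1 h⟩

variable [Fintype F] [DecidableEq F]

/-- the index set of the commuting classes of the elements with nonzero entry `(1, 2)` -/
def cls (F : Type) [Field F] [Fintype F] [DecidableEq F] : Finset (F × F × F) :=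
  Finset.univ.filter fun p => ¬ (p.1 = 0 ∧ p.2.1 = 0) ∨ p.2.2 = 0

theorem card_cls : (cls F).card + Fintype.card F = Fintype.card F ^ 3 + 1 := by
  have h1 : (cls F).card + ((Finset.univ.filter fun p : F × F × F =>
      ¬ (¬ (p.1 = 0 ∧ p.2.1 = 0) ∨ p.2.2 = 0))).card = Fintype.card (F × F × F) := by
    rw [cls, Finset.card_filter_add_card_filter_not, Finset.card_univ]
  have h2 : (Finset.univ.filter fun p : F × F × F =>
      ¬ (¬ (p.1 = 0 ∧ p.2.1 = 0) ∨ p.2.2 = 0)) =
      (Finset.univ.erase (0 : F)).image fun t => ((0, 0, t) : F × F × F) := by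
    ext ⟨a, b, c⟩
    simp only [Finset.mem_filter, Finset.mem_univ, true_and, Finset.mem_image, Finset.mem_erase,
      and_true, Prod.mk.injEq, not_or, not_not]
    constructor
    · rintro ⟨⟨rfl, rfl⟩, h⟩
      exact ⟨c, h, rfl, rfl, rfl⟩
    · rintro ⟨t, h, rfl, rfl, rfl⟩
      exact ⟨⟨rfl, rfl⟩, h⟩
  have h3 : ((Finset.univ.erase (0 : F)).image fun t => ((0, 0, t) : F × F × F)).card + 1 =
      Fintype.card F := by
    rw [Finset.card_image_of_injective _ (fun s t e => by simpa using e),
      Finset.card_erase_of_mem (Finset.mem_univ _), Finset.card_univ]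
    have := Fintype.card_pos (α := F)
    omega
  rw [h2] at h1
  have h4 : Fintype.card (F × F × F) = Fintype.card F ^ 3 := by
    rw [Fintype.card_prod, Fintype.card_prod]
    ring
  rw [h4] at h1
  omega

theorem card_one {X : Finset (UU4 F)} (hX : NonCommuting X) :
    (X.filter fun x => en x 1 2 ≠ 0).card ≤ (cls F).card := by
  refine Finset.card_le_card_of_injOn
    (fun x => (en x 0 1 / en x 1 2, en x 2 3 / en x 1 2,
      (en x 0 1 * en x 1 3 - en x 2 3 * en x 0 2) / (en x 1 2 * en x 1 2))) ?_ ?_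
  · intro x hx
    rw [Finset.mem_coe, Finset.mem_filter] at hx
    rw [Finset.mem_coe, cls, Finset.mem_filter]
    refine ⟨Finset.mem_univ _, ?_⟩
    by_cases h : en x 0 1 = 0 ∧ en x 2 3 = 0
    · right
      simp [h.1, h.2]
    · left
      intro h1
      apply h
      exact ⟨(div_eq_zero_iff.1 h1.1).resolve_right hx.2,
        (div_eq_zero_iff.1 h1.2).resolve_right hx.2⟩
  · intro x hx y hy e
    rw [Finset.mem_coe, Finset.mem_filter] at hx hy
    by_contra hne
    apply hX x hx.1 y hy.1 hne
    simp only [Prod.mk.injEq] at e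
    obtain ⟨e1, e2, e3⟩ := e
    have hx2 := hx.2
    have hy2 := hy.2
    obtain ⟨α, hα⟩ : ∃ α, α = en x 0 1 / en x 1 2 := ⟨_, rfl⟩
    obtain ⟨β, hβ⟩ : ∃ β, β = en x 2 3 / en x 1 2 := ⟨_, rfl⟩
    rw [← hα] at e1
    rw [← hβ] at e2
    have a1 : en x 0 1 = α * en x 1 2 := by rw [hα, div_mul_cancel₀ _ hx2]
    have a2 : en y 0 1 = α * en y 1 2 := by rw [e1, div_mul_cancel₀ _ hy2]
    have a3 : en x 2 3 = β * en x 1 2 := by rw [hβ, div_mul_cancel₀ _ hx2]
    have a4 : en y 2 3 = β * en y 1 2 := by rw [e2, div_mul_cancel₀ _ hy2]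
    rw [comm_iff, a1, a2, a3, a4]
    rw [a1, a2, a3, a4, div_eq_div_iff (mul_ne_zero hx2 hx2) (mul_ne_zero hy2 hy2)] at e3
    refine ⟨by ring, by ring, ?_⟩
    have e4 : (en x 1 2 * en y 1 2) * (α * en x 1 2 * en y 1 3 + en x 0 2 * (β * en y 1 2)) =
        (en x 1 2 * en y 1 2) * (α * en y 1 2 * en x 1 3 + en y 0 2 * (β * en x 1 2)) := by
      linear_combination (-1 : F) * e3
    exact mul_left_cancel₀ (mul_ne_zero hx2 hy2) e4

theorem card_zero {X : Finset (UU4 F)} (hX : NonCommuting X) (hodd : Odd (Fintype.card F)) :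
    (X.filter fun x => ¬ en x 1 2 ≠ 0).card < Fintype.card F ^ 2 := by
  have hne : ∀ x ∈ X.filter fun x => ¬ en x 1 2 ≠ 0, ∀ y ∈ X.filter fun x => ¬ en x 1 2 ≠ 0,
      x ≠ y → Bf (vec x) (vec y) ≠ 0 := by
    intro x hx y hy hxy h0
    rw [Finset.mem_filter, not_not] at hx hy
    exact hX x hx.1 y hy.1 hxy (comm_of_zero hx.2 hy.2 h0)
  have hinj : Set.InjOn vec ((X.filter fun x => ¬ en x 1 2 ≠ 0 : Finset (UU4 F)) : Set (UU4 F)) := by
    intro x hx y hy e
    by_contra hxy
    apply hne x hx y hy hxy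
    rw [e]
    exact symp.alt _
  rw [← Finset.card_image_of_injOn hinj]
  apply Pool.Agent.R672.UU.odd_bound symp _ hodd
  intro u hu v hv huv
  rw [Finset.mem_image] at hu hv
  obtain ⟨x, hx, rfl⟩ := hu
  obtain ⟨y, hy, rfl⟩ := hv
  exact hne x hx y hy fun e => huv (by rw [e])

theorem upper (hodd : Odd (Fintype.card F)) :
    omega (UU4 F) + Fintype.card F ≤ Fintype.card F ^ 3 + Fintype.card F ^ 2 := by
  have h : omega (UU4 F) ≤ Fintype.card F ^ 3 + Fintype.card F ^ 2 - Fintype.card F := by
    apply omega_le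
    intro X hX
    have h1 := card_one hX
    have h2 := card_zero hX hodd
    have h3 := card_cls (F := F)
    have h4 : (X.filter fun x => en x 1 2 ≠ 0).card + (X.filter fun x => ¬ en x 1 2 ≠ 0).card =
      X.card := Finset.card_filter_add_card_filter_not _
    omega
  have h5 : Fintype.card F ≤ Fintype.card F ^ 3 := Nat.le_self_pow (by norm_num) _
  omega

end upper

section lower

variable {F : Type} [Field F] [Fintype F] [DecidableEq F]

theorem exists_kappa (F : Type) [Field F] [Fintype F] (h2 : (2 : F) = 0) :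
    ∃ k : F, ∀ x : F, x ^ 2 + x + k ≠ 0 := by
  have hni : ¬ Function.Injective fun x : F => x ^ 2 + x := by
    intro hi
    have h1 : (0 : F) = 1 := by
      apply hi
      show (0 : F) ^ 2 + 0 = 1 ^ 2 + 1
      linear_combination (-1 : F) * h2
    exact zero_ne_one h1
  have hns : ¬ Function.Surjective fun x : F => x ^ 2 + x := fun h =>
    hni (Finite.injective_iff_surjective.2 h)
  rw [Function.Surjective] at hns
  push Not at hns
  obtain ⟨k, hk⟩ := hns
  refine ⟨k, fun x e => hk x ?_⟩
  show x ^ 2 + x = k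
  linear_combination e - k * h2

/-- the large non-commuting family in characteristic two -/
def fam (k : F) : (cls F) ⊕ (F × F) → UU4 F
  | Sum.inl p => mk p.1.1 1 p.1.2.1 (if p.1.1 = 0 then - p.1.2.2 / p.1.2.1 else 0)
      (if p.1.1 = 0 then 0 else p.1.2.2 / p.1.1)
  | Sum.inr p => mk 1 0 p.2 p.1 (p.1 ^ 2 + p.1 * p.2 + k * p.2 ^ 2)

theorem fam_aux {a c t : F} (h : (a, c, t) ∈ cls F) :
    a * (if a = 0 then 0 else t / a) - c * (if a = 0 then - t / c else 0) = t := by
  rw [cls, Finset.mem_filter] at h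
  split_ifs with ha
  · by_cases hc : c = 0
    · have : t = 0 := by
        rcases h.2 with h | h
        · exact absurd ⟨ha, hc⟩ h
        · exact h
      rw [this]
      simp
    · field_simp
      ring
  · field_simp
    ring

theorem lower (heven : Even (Fintype.card F)) :
    Fintype.card F ^ 3 + Fintype.card F ^ 2 + 1 ≤ omega (UU4 F) + Fintype.card F := by
  have hchar : ringChar F = 2 := FiniteField.even_card_iff_char_two.2 (Nat.even_iff.1 heven)
  have h2 : (2 : F) = 0 := by
    have : ((2 : ℕ) : F) = 0 := (ringChar.spec F 2).2 (by rw [hchar])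
    exact_mod_cast this
  obtain ⟨k, hk⟩ := exists_kappa F h2
  have hfin : Finite (UU4 F) := inferInstance
  have h3 := le_omega (fam k) (by
    rintro (⟨⟨a, c, t⟩, hp⟩ | ⟨d, c⟩) (⟨⟨a', c', t'⟩, hp'⟩ | ⟨d', c'⟩) h
    · simp only [fam] at h
      rw [mk_comm] at h
      obtain ⟨e1, e2, e3⟩ := h
      rw [mul_one, mul_one] at e1
      rw [one_mul, one_mul] at e2
      subst e1
      subst e2
      have f1 := fam_aux hp
      have f2 := fam_aux hp'
      have : t = t' := by
        rw [← f1, ← f2]
        linear_combination (-1 : F) * e3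
      subst this
      rfl
    · simp only [fam] at h
      rw [mk_comm] at h
      exact absurd h.1 (by simp)
    · simp only [fam] at h
      rw [mk_comm] at h
      exact absurd h.1 (by simp)
    · simp only [fam] at h
      rw [mk_comm] at h
      obtain ⟨-, -, e3⟩ := h
      have key : (d + d') ^ 2 + (d + d') * (c + c') + k * (c + c') ^ 2 = 0 := by
        linear_combination e3 + (d ^ 2 + d * d' + c * d + c ^ 2 * k + c * c' * k + c * d') * h2
      by_cases hc : c + c' = 0
      · rw [hc] at key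
        have hd : d + d' = 0 := by
          have : (d + d') ^ 2 = 0 := by linear_combination key
          exact pow_eq_zero_iff (two_ne_zero) |>.1 this
        have e1 : d = d' := by linear_combination hd - d' * h2
        have e2 : c = c' := by linear_combination hc - c' * h2
        rw [e1, e2]
      · exfalso
        apply hk ((d + d') / (c + c'))
        field_simp
        linear_combination key)
  rw [Fintype.card_sum, Fintype.card_coe, Fintype.card_prod] at h3
  have h4 := card_cls (F := F)
  have h5 : Fintype.card F * Fintype.card F = Fintype.card F ^ 2 := by ring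
  rw [h5] at h3
  omega

end lower

open Polynomial in
/-- a polynomial is eventually of one sign -/
theorem sign (D : ℝ[X]) (h1 : ∀ N : ℕ, ∃ n : ℕ, N ≤ n ∧ 0 ≤ D.eval (n : ℝ))
    (h2 : ∀ N : ℕ, ∃ n : ℕ, N ≤ n ∧ D.eval (n : ℝ) < 0) : False := by
  rcases le_or_gt D.degree 0 with hd | hd
  · rw [Polynomial.eq_C_of_degree_le_zero hd] at h1 h2
    obtain ⟨n, _, hn⟩ := h1 0
    obtain ⟨m, _, hm⟩ := h2 0
    rw [eval_C] at hn hm
    linarith
  · rcases le_total 0 D.leadingCoeff with hl | hl
    · have ht := (D.tendsto_atTop_of_leadingCoeff_nonneg hd hl).comp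
        (tendsto_natCast_atTop_atTop (R := ℝ))
      obtain ⟨N, hN⟩ := Filter.eventually_atTop.1 (ht.eventually_ge_atTop 0)
      obtain ⟨m, hm, hm2⟩ := h2 N
      have := hN m hm
      simp only [Function.comp_apply] at this
      linarith
    · have ht := (D.tendsto_atBot_of_leadingCoeff_nonpos hd hl).comp
        (tendsto_natCast_atTop_atTop (R := ℝ))
      obtain ⟨N, hN⟩ := Filter.eventually_atTop.1 (ht.eventually_le_atBot (-1))
      obtain ⟨m, hm, hm2⟩ := h1 N
      have := hN m hm
      simp only [Function.comp_apply] at this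
      linarith

/-- **Main theorem.** (1) `ω(UU₄(q)) ≥ q³ + q² - q + 1` for even `q`.
(2) `ω(UU₄(q)) ≤ q³ + q² - q` for odd `q`.
(3) `ω(UU₄(q))` is not a polynomial in `q` for large `q`. -/
theorem result :
    (∀ (F : Type) [Field F] [Finite F], Even (Nat.card F) →
      Nat.card F ^ 3 + Nat.card F ^ 2 + 1 ≤ omega (UU4 F) + Nat.card F) ∧
    (∀ (F : Type) [Field F] [Finite F], Odd (Nat.card F) →
      omega (UU4 F) + Nat.card F ≤ Nat.card F ^ 3 + Nat.card F ^ 2) ∧
    ∀ (P : Polynomial ℚ) (q₀ : ℕ), ∃ (F : Type) (_ : Field F) (_ : Finite F),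
      q₀ ≤ Nat.card F ∧ (omega (UU4 F) : ℚ) ≠ P.eval (Nat.card F : ℚ) := by
  classical
  have A : ∀ (F : Type) [Field F] [Finite F], Even (Nat.card F) →
      Nat.card F ^ 3 + Nat.card F ^ 2 + 1 ≤ omega (UU4 F) + Nat.card F := by
    intro F _ _ h
    have := Fintype.ofFinite F
    rw [Nat.card_eq_fintype_card] at h ⊢
    exact lower h
  have B : ∀ (F : Type) [Field F] [Finite F], Odd (Nat.card F) →
      omega (UU4 F) + Nat.card F ≤ Nat.card F ^ 3 + Nat.card F ^ 2 := by
    intro F _ _ h
    have := Fintype.ofFinite F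
    rw [Nat.card_eq_fintype_card] at h ⊢
    exact upper h
  refine ⟨A, B, fun P q₀ => ?_⟩
  by_contra hcon
  push Not at hcon
  obtain ⟨D, hD⟩ : ∃ D : Polynomial ℝ, D = P.map (algebraMap ℚ ℝ) -
      (Polynomial.X ^ 3 + Polynomial.X ^ 2 - Polynomial.X + 1) := ⟨_, rfl⟩
  have hDe : ∀ (F : Type) [Field F] [Finite F], q₀ ≤ Nat.card F →
      D.eval (Nat.card F : ℝ) = (omega (UU4 F) : ℝ) -
        ((Nat.card F : ℝ) ^ 3 + (Nat.card F : ℝ) ^ 2 - (Nat.card F : ℝ) + 1) := by
    intro F _ _ h
    have h1 := hcon F inferInstance inferInstance h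
    rw [hD]
    simp only [Polynomial.eval_sub, Polynomial.eval_add, Polynomial.eval_pow, Polynomial.eval_X,
      Polynomial.eval_one]
    congr 1
    have h2 : (P.map (algebraMap ℚ ℝ)).eval (((Nat.card F : ℚ)) : ℝ) =
        ((P.eval (Nat.card F : ℚ) : ℚ) : ℝ) := by
      rw [Polynomial.eval_map]
      exact Polynomial.eval₂_at_apply (algebraMap ℚ ℝ) (Nat.card F : ℚ)
    rw [← h1] at h2
    simpa using h2
  apply sign D
  · intro N
    haveI : Fact (Nat.Prime 2) := ⟨Nat.prime_two⟩
    obtain ⟨n, hn⟩ : ∃ n, n = max N q₀ + 1 := ⟨_, rfl⟩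
    have hc : Nat.card (GaloisField 2 n) = 2 ^ n := GaloisField.card 2 n (by omega)
    have h2n : n < 2 ^ n := Nat.lt_two_pow_self
    have hfin : Finite (GaloisField 2 n) := Nat.finite_of_card_ne_zero (by rw [hc]; positivity)
    refine ⟨2 ^ n, by omega, ?_⟩
    have h1 := hDe (GaloisField 2 n) (by rw [hc]; omega)
    have h2 := A (GaloisField 2 n) (by
      rw [hc]
      exact (Nat.even_pow.2 ⟨even_two, by omega⟩))
    rw [hc] at h1 h2
    rw [h1]
    have h3 : (((2 ^ n : ℕ) : ℝ)) ^ 3 + ((2 ^ n : ℕ) : ℝ) ^ 2 + 1 ≤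
        (omega (UU4 (GaloisField 2 n)) : ℝ) + ((2 ^ n : ℕ) : ℝ) := by
      exact_mod_cast h2
    linarith
  · intro N
    obtain ⟨p, hp1, hp2⟩ := Nat.exists_infinite_primes (max N q₀ + 3)
    haveI : Fact p.Prime := ⟨hp2⟩
    refine ⟨p, by omega, ?_⟩
    have hc : Nat.card (ZMod p) = p := Nat.card_zmod p
    have h1 := hDe (ZMod p) (by rw [hc]; omega)
    have h2 := B (ZMod p) (by
      rw [hc]
      exact hp2.odd_of_ne_two (by omega))
    rw [hc] at h1 h2
    rw [h1]
    have h3 : (omega (UU4 (ZMod p)) : ℝ) + (p : ℝ) ≤ (p : ℝ) ^ 3 + (p : ℝ) ^ 2 := by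
      exact_mod_cast h2
    linarith

end Pool.Agent.Results.MP_671173_al.NotPolynomial
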